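import Mathlib
import Pool.Agent.Helper55.JS.Walks
import Pool.Agent.Helper91.JS.P3

/-!
# Project JS, piece JS-10: assembling the blowup in the heavy case
-/

set_option autoImplicit false

namespace Pool.Agent.Helper55.JS

open Finset

namespace P10

variable {V : Type}

/-- the vertex at distance `i` from the centre on leg `c` -/
def lg {j1 j2 k : ℕ} (Q : Fin (j1 + j2 + 1) → V) (R : Fin (k + 1) → V) (c : Fin 3) (i : ℕ) : V :=
  if c = 0 then Q ⟨j1 - i, by omega⟩
  else if c = 1 then Q ⟨min (j1 + i) (j1 + j2), by omega⟩ else R ⟨k - i, by omega⟩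

lemma lg_zero {j1 j2 k : ℕ} (Q : Fin (j1 + j2 + 1) → V) (R : Fin (k + 1) → V) (i : ℕ) :
    lg Q R 0 i = Q ⟨j1 - i, by omega⟩ := by
  unfold lg
  rw [if_pos rfl]

lemma lg_one {j1 j2 k : ℕ} (Q : Fin (j1 + j2 + 1) → V) (R : Fin (k + 1) → V) (i : ℕ)
    (h : i ≤ j2) :
    lg Q R 1 i = Q ⟨j1 + i, by omega⟩ := by
  unfold lg
  rw [if_neg (by decide), if_pos rfl]
  congr 1
  exact Fin.ext (by simp; omega)

lemma lg_two {j1 j2 k : ℕ} (Q : Fin (j1 + j2 + 1) → V) (R : Fin (k + 1) → V) (i : ℕ) :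
    lg Q R 2 i = R ⟨k - i, by omega⟩ := by
  unfold lg
  rw [if_neg (by decide), if_neg (by decide)]

end P10

open P10

variable {V : Type} [Fintype V] [DecidableEq V] {G : SimpleGraph V}

omit [DecidableEq V] in
/-- JS-10, with the embedding lemma JS-3b as a hypothesis -/
theorem P10.heavy_assemble_of {j1 j2 k t : ℕ} (ht : 1 ≤ t) (h1 : 1 ≤ j1) (h2 : 1 ≤ j2)
    (hk : 1 ≤ k)
    (js3 : ∀ {s t : ℕ}, 1 ≤ s → 1 ≤ t → ∀ {j : Fin s → ℕ}, (∀ c, 1 ≤ j c) →
      ∀ (X : Fin s → V) (u : Fin t → V) (p : Fin t → Legs V j), (∀ a, IsCopy G j (u a) (p a)) →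
      (∀ a c, p a c (Fin.last (j c)) = X c) →
      (∀ a b, a ≠ b → ∀ (c c' : Fin s) (i : Fin (j c)) (i' : Fin (j c')),
        p a c i.castSucc ≠ p b c' i'.castSucc) → (blow s t j).IsContained G)
    {w X1 X2 : V} (Q : Fin t → (Fin (j1 + j2 + 1) → V))
    (hQ : ∀ a, Q a ∈ wk G (j1 + j2) X1 X2) (hQi : ∀ a, Function.Injective (Q a))
    (hQw : ∀ a i, Q a i ≠ w)
    (hQd : ∀ a b, a ≠ b → ∀ i i' : Fin (j1 + j2 + 1), i ≠ 0 → i ≠ Fin.last (j1 + j2) →
      i' ≠ 0 → i' ≠ Fin.last (j1 + j2) → Q a i ≠ Q b i')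
    (R : Fin t → (Fin (k + 1) → V)) (hR : ∀ a, R a ∈ wk G k w (Q a ⟨j1, by omega⟩))
    (hRi : ∀ a, Function.Injective (R a))
    (hRQ : ∀ a b (i : Fin (k + 1)) (i' : Fin (j1 + j2 + 1)), i ≠ 0 → i ≠ Fin.last k →
      R a i ≠ Q b i')
    (hRd : ∀ a b, a ≠ b → ∀ i i' : Fin (k + 1), i ≠ 0 → i ≠ Fin.last k → i' ≠ 0 →
      i' ≠ Fin.last k → R a i ≠ R b i') :
    (blow 3 t ![j1, j2, k]).IsContained G := by
  -- elementary facts
  have hQwk : ∀ a, IsWalk G (Q a) := fun a => (mem_wk.1 (hQ a)).1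
  have hQ0 : ∀ a, Q a ⟨0, by omega⟩ = X1 := fun a => (mem_wk.1 (hQ a)).2.1
  have hQl : ∀ a, Q a ⟨j1 + j2, by omega⟩ = X2 := fun a => (mem_wk.1 (hQ a)).2.2
  have hRwk : ∀ a, IsWalk G (R a) := fun a => (mem_wk.1 (hR a)).1
  have hR0 : ∀ a, R a ⟨0, by omega⟩ = w := fun a => (mem_wk.1 (hR a)).2.1
  have hRl : ∀ a, R a ⟨k, by omega⟩ = Q a ⟨j1, by omega⟩ := fun a => (mem_wk.1 (hR a)).2.2
  have hQi' : ∀ (a : Fin t) (x y : ℕ) (hx : x < j1 + j2 + 1) (hy : y < j1 + j2 + 1),
      Q a ⟨x, hx⟩ = Q a ⟨y, hy⟩ → x = y := fun a x y hx hy h =>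
    congrArg Fin.val (hQi a h)
  have hRi' : ∀ (a : Fin t) (x y : ℕ) (hx : x < k + 1) (hy : y < k + 1),
      R a ⟨x, hx⟩ = R a ⟨y, hy⟩ → x = y := fun a x y hx hy h =>
    congrArg Fin.val (hRi a h)
  have hQd' : ∀ (a b : Fin t), a ≠ b → ∀ (x y : ℕ) (hx : x < j1 + j2) (hy : y < j1 + j2),
      0 < x → 0 < y → Q a ⟨x, by omega⟩ ≠ Q b ⟨y, by omega⟩ := by
    intro a b hab x y hx hy hx0 hy0
    refine hQd a b hab _ _ ?_ ?_ ?_ ?_ <;> rw [Ne, Fin.ext_iff] <;> simp <;> omega
  have hRd' : ∀ (a b : Fin t), a ≠ b → ∀ (x y : ℕ) (hx : x < k) (hy : y < k),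
      0 < x → 0 < y → R a ⟨x, by omega⟩ ≠ R b ⟨y, by omega⟩ := by
    intro a b hab x y hx hy hx0 hy0
    refine hRd a b hab _ _ ?_ ?_ ?_ ?_ <;> rw [Ne, Fin.ext_iff] <;> simp <;> omega
  have hRQ' : ∀ (a b : Fin t) (x y : ℕ) (hx : x < k) (hy : y < j1 + j2 + 1),
      0 < x → R a ⟨x, by omega⟩ ≠ Q b ⟨y, hy⟩ := by
    intro a b x y hx hy hx0
    refine hRQ a b _ _ ?_ ?_ <;> rw [Ne, Fin.ext_iff] <;> simp <;> omega
  -- R against Q at a positive distance from the centre
  have hRQ2 : ∀ (a : Fin t) (x y : ℕ) (hx : x < k) (hy : y < j1 + j2 + 1),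
      R a ⟨x, by omega⟩ ≠ Q a ⟨y, hy⟩ := by
    intro a x y hx hy
    rcases Nat.eq_zero_or_pos x with rfl | hx0
    · rw [hR0]; exact (hQw a _).symm
    · exact hRQ' a a x y hx hy hx0
  -- R against Q between different copies
  have hRQ3 : ∀ (a b : Fin t), a ≠ b → ∀ (x y : ℕ) (hx : x ≤ k) (hy : y < j1 + j2),
      0 < x → 0 < y → R a ⟨x, by omega⟩ ≠ Q b ⟨y, by omega⟩ := by
    intro a b hab x y hx hy hx0 hy0
    rcases Nat.lt_or_ge x k with hxk | hxk
    · exact hRQ' a b x y hxk (by omega) hx0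
    · obtain rfl : x = k := by omega
      rw [hRl]
      exact hQd' a b hab j1 y (by omega) hy (by omega) hy0
  have hRd2 : ∀ (a b : Fin t), a ≠ b → ∀ (x y : ℕ) (hx : x ≤ k) (hy : y ≤ k),
      0 < x → 0 < y → R a ⟨x, by omega⟩ ≠ R b ⟨y, by omega⟩ := by
    intro a b hab x y hx hy hx0 hy0
    rcases Nat.lt_or_ge y k with hyk | hyk
    · rcases Nat.lt_or_ge x k with hxk | hxk
      · exact hRd' a b hab x y hxk hyk hx0 hy0
      · obtain rfl : x = k := by omega
        rw [hRl]
        exact (hRQ' b a y j1 hyk (by omega) hy0).symm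
    · obtain rfl : y = k := by omega
      rw [hRl]
      exact hRQ3 a b hab x j1 hx (by omega) hx0 (by omega)
  have hc3 : ∀ (P : Fin 3 → Prop), P 0 → P 1 → P 2 → ∀ c, P c := by
    intro P p0 p1 p2 c
    fin_cases c
    · exact p0
    · exact p1
    · exact p2
  have hjc : ∀ c : Fin 3, 1 ≤ ![j1, j2, k] c := hc3 _ h1 h2 hk
  refine js3 (by norm_num) ht hjc ![X1, X2, w]
    (fun a => Q a ⟨j1, by omega⟩) (fun a c i => lg (Q a) (R a) c i) ?_ ?_ ?_
  · intro a
    constructor
    · refine hc3 _ ?_ ?_ ?_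
      · show lg (Q a) (R a) 0 0 = _
        rw [lg_zero]; rfl
      · show lg (Q a) (R a) 1 0 = _
        rw [lg_one _ _ _ (by omega)]; rfl
      · show lg (Q a) (R a) 2 0 = _
        rw [lg_two]
        exact hRl a
    · have key : ∀ (c : Fin 3) (i : ℕ), i < ![j1, j2, k] c →
          G.Adj (lg (Q a) (R a) c i) (lg (Q a) (R a) c (i + 1)) := by
        refine hc3 _ ?_ ?_ ?_
        · intro i hi
          change i < j1 at hi
          rw [lg_zero, lg_zero]
          have := (hQwk a).adj' (j1 - (i + 1)) (by omega)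
          have e : (⟨j1 - (i + 1) + 1, by omega⟩ : Fin (j1 + j2 + 1)) = ⟨j1 - i, by omega⟩ :=
            Fin.ext (by simp; omega)
          rw [e] at this
          exact this.symm
        · intro i hi
          change i < j2 at hi
          rw [lg_one _ _ _ (by omega), lg_one _ _ _ (by omega)]
          exact (hQwk a).adj' (j1 + i) (by omega)
        · intro i hi
          change i < k at hi
          rw [lg_two, lg_two]
          have := (hRwk a).adj' (k - (i + 1)) (by omega)
          have e : (⟨k - (i + 1) + 1, by omega⟩ : Fin (k + 1)) = ⟨k - i, by omega⟩ :=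
            Fin.ext (by simp; omega)
          rw [e] at this
          exact this.symm
      intro c i
      exact key c i i.2
    · have key : ∀ (c c' : Fin 3) (i i' : ℕ), i ≤ ![j1, j2, k] c → i' ≤ ![j1, j2, k] c' → i ≠ 0 →
          lg (Q a) (R a) c i = lg (Q a) (R a) c' i' → c = c' ∧ i = i' := by
        refine hc3 _ (hc3 _ ?_ ?_ ?_) (hc3 _ ?_ ?_ ?_) (hc3 _ ?_ ?_ ?_)
        · intro i i' hi hi' h0 h
          change i ≤ j1 at hi
          change i' ≤ j1 at hi'
          rw [lg_zero, lg_zero] at h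
          have := hQi' _ _ _ _ _ h
          exact ⟨rfl, by omega⟩
        · intro i i' hi hi' h0 h
          change i ≤ j1 at hi
          change i' ≤ j2 at hi'
          rw [lg_zero, lg_one _ _ _ hi'] at h
          have := hQi' _ _ _ _ _ h
          omega
        · intro i i' hi hi' h0 h
          change i ≤ j1 at hi
          change i' ≤ k at hi'
          rw [lg_zero, lg_two] at h
          rcases Nat.eq_zero_or_pos i' with rfl | hi0
          · have h' := h.trans (hRl a)
            have := hQi' _ _ _ _ _ h'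
            omega
          · exact absurd h.symm (hRQ2 a _ _ (by omega) _)
        · intro i i' hi hi' h0 h
          change i ≤ j2 at hi
          change i' ≤ j1 at hi'
          rw [lg_zero, lg_one _ _ _ hi] at h
          have := hQi' _ _ _ _ _ h
          omega
        · intro i i' hi hi' h0 h
          change i ≤ j2 at hi
          change i' ≤ j2 at hi'
          rw [lg_one _ _ _ hi, lg_one _ _ _ hi'] at h
          have := hQi' _ _ _ _ _ h
          exact ⟨rfl, by omega⟩
        · intro i i' hi hi' h0 h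
          change i ≤ j2 at hi
          change i' ≤ k at hi'
          rw [lg_one _ _ _ hi, lg_two] at h
          rcases Nat.eq_zero_or_pos i' with rfl | hi0
          · have h' := h.trans (hRl a)
            have := hQi' _ _ _ _ _ h'
            omega
          · exact absurd h.symm (hRQ2 a _ _ (by omega) _)
        · intro i i' hi hi' h0 h
          change i ≤ k at hi
          change i' ≤ j1 at hi'
          rw [lg_two, lg_zero] at h
          exact absurd h (hRQ2 a _ _ (by omega) _)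
        · intro i i' hi hi' h0 h
          change i ≤ k at hi
          change i' ≤ j2 at hi'
          rw [lg_two, lg_one _ _ _ hi'] at h
          exact absurd h (hRQ2 a _ _ (by omega) _)
        · intro i i' hi hi' h0 h
          change i ≤ k at hi
          change i' ≤ k at hi'
          rw [lg_two, lg_two] at h
          have := hRi' _ _ _ _ _ h
          exact ⟨rfl, by omega⟩
      intro c c' i i' hi h
      refine key c c' i i' (Nat.lt_succ_iff.1 i.2) (Nat.lt_succ_iff.1 i'.2) ?_ h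
      intro h0
      exact hi (Fin.ext h0)
  · intro a
    refine hc3 _ ?_ ?_ ?_
    · show lg (Q a) (R a) 0 j1 = X1
      rw [lg_zero, ← hQ0 a]
      congr 1
      exact Fin.ext (by simp)
    · show lg (Q a) (R a) 1 j2 = X2
      rw [lg_one _ _ _ le_rfl, ← hQl a]
    · show lg (Q a) (R a) 2 k = w
      rw [lg_two, ← hR0 a]
      congr 1
      exact Fin.ext (by simp)
  · intro a b hab
    have key : ∀ (c c' : Fin 3) (i i' : ℕ), i < ![j1, j2, k] c → i' < ![j1, j2, k] c' →
        lg (Q a) (R a) c i ≠ lg (Q b) (R b) c' i' := by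
      refine hc3 _ (hc3 _ ?_ ?_ ?_) (hc3 _ ?_ ?_ ?_) (hc3 _ ?_ ?_ ?_)
      · intro i i' hi hi'
        change i < j1 at hi
        change i' < j1 at hi'
        rw [lg_zero, lg_zero]
        exact hQd' a b hab _ _ (by omega) (by omega) (by omega) (by omega)
      · intro i i' hi hi'
        change i < j1 at hi
        change i' < j2 at hi'
        rw [lg_zero, lg_one _ _ _ hi'.le]
        exact hQd' a b hab _ _ (by omega) (by omega) (by omega) (by omega)
      · intro i i' hi hi'
        change i < j1 at hi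
        change i' < k at hi'
        rw [lg_zero, lg_two]
        exact (hRQ3 b a hab.symm _ _ (by omega) (by omega) (by omega) (by omega)).symm
      · intro i i' hi hi'
        change i < j2 at hi
        change i' < j1 at hi'
        rw [lg_zero, lg_one _ _ _ hi.le]
        exact hQd' a b hab _ _ (by omega) (by omega) (by omega) (by omega)
      · intro i i' hi hi'
        change i < j2 at hi
        change i' < j2 at hi'
        rw [lg_one _ _ _ hi.le, lg_one _ _ _ hi'.le]
        exact hQd' a b hab _ _ (by omega) (by omega) (by omega) (by omega)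
      · intro i i' hi hi'
        change i < j2 at hi
        change i' < k at hi'
        rw [lg_one _ _ _ hi.le, lg_two]
        exact (hRQ3 b a hab.symm _ _ (by omega) (by omega) (by omega) (by omega)).symm
      · intro i i' hi hi'
        change i < k at hi
        change i' < j1 at hi'
        rw [lg_two, lg_zero]
        exact hRQ3 a b hab _ _ (by omega) (by omega) (by omega) (by omega)
      · intro i i' hi hi'
        change i < k at hi
        change i' < j2 at hi'
        rw [lg_two, lg_one _ _ _ hi'.le]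
        exact hRQ3 a b hab _ _ (by omega) (by omega) (by omega) (by omega)
      · intro i i' hi hi'
        change i < k at hi
        change i' < k at hi'
        rw [lg_two, lg_two]
        exact hRd2 a b hab _ _ (by omega) (by omega) (by omega) (by omega)
    intro c c' i i'
    exact key c c' i i' i.2 i'.2

/-- JS-10 -/
theorem heavy_assemble {j1 j2 k t : ℕ} (ht : 1 ≤ t) (h1 : 1 ≤ j1) (h2 : 1 ≤ j2) (hk : 1 ≤ k)
    {w X1 X2 : V} (Q : Fin t → (Fin (j1 + j2 + 1) → V))
    (hQ : ∀ a, Q a ∈ wk G (j1 + j2) X1 X2) (hQi : ∀ a, Function.Injective (Q a))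
    (hQw : ∀ a i, Q a i ≠ w)
    (hQd : ∀ a b, a ≠ b → ∀ i i' : Fin (j1 + j2 + 1), i ≠ 0 → i ≠ Fin.last (j1 + j2) →
      i' ≠ 0 → i' ≠ Fin.last (j1 + j2) → Q a i ≠ Q b i')
    (R : Fin t → (Fin (k + 1) → V)) (hR : ∀ a, R a ∈ wk G k w (Q a ⟨j1, by omega⟩))
    (hRi : ∀ a, Function.Injective (R a))
    (hRQ : ∀ a b (i : Fin (k + 1)) (i' : Fin (j1 + j2 + 1)), i ≠ 0 → i ≠ Fin.last k →
      R a i ≠ Q b i')
    (hRd : ∀ a b, a ≠ b → ∀ i i' : Fin (k + 1), i ≠ 0 → i ≠ Fin.last k → i' ≠ 0 →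
      i' ≠ Fin.last k → R a i ≠ R b i') :
    (blow 3 t ![j1, j2, k]).IsContained G :=
  P10.heavy_assemble_of ht h1 h2 hk
    (fun hs ht _ hj X u p hc hX hd => isContained_of_copies hs ht hj X u p hc hX hd)
    Q hQ hQi hQw hQd R hR hRi hRQ hRd

end Pool.Agent.Helper55.JS
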